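import Mathlib
import Pool.Agent.R328.TA
import Pool.Agent.Helper168.SV.Gap

/-!
# Mahler measures of powers and inverses, and powers of eigenvalues of integer matrices
-/

set_option autoImplicit false

namespace Pool.Agent.Helper168.GG

open Polynomial
open Pool.Agent.W963.GE (MM MM_gt MM_ge)

noncomputable section

lemma one_le_of_monic {q : ℤ[X]} (hq : q.Monic) : 1 ≤ Pool.Agent.H388SL.MM q := by
  unfold Pool.Agent.H388SL.MM
  apply one_le_mahlerMeasure_of_one_le_norm_leadingCoeff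
  rw [(hq.map _).leadingCoeff, norm_one]

lemma MM_eq (y : ℂ) : MM y = Pool.Agent.H388SL.MM (minpoly ℤ y) := rfl

/-- the Mahler measure does not decrease when passing to a power -/
lemma MM_pow_ge {y : ℂ} (hy : IsIntegral ℤ y) {m : ℕ} (hm : 0 < m) : MM y ≤ MM (y ^ m) := by
  have hz : IsIntegral ℤ (y ^ m) := hy.pow m
  have h1 : aeval y (expand ℤ m (minpoly ℤ (y ^ m))) = 0 := by
    rw [expand_aeval]; exact minpoly.aeval ℤ _
  obtain ⟨q, hq⟩ := minpoly.isIntegrallyClosed_dvd hy h1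
  have h2 : (expand ℤ m (minpoly ℤ (y ^ m))).Monic := (minpoly.monic hz).expand hm
  have h3 : q.Monic := by
    rw [hq] at h2
    exact (minpoly.monic hy).of_mul_monic_left h2
  have h4 := Pool.Agent.Y947.DL.MM_expand hm (minpoly ℤ (y ^ m))
  rw [hq, Pool.Agent.H388SL.MM_mul] at h4
  rw [MM_eq, MM_eq, ← h4]
  have h5 : 0 ≤ Pool.Agent.H388SL.MM (minpoly ℤ y) := mahlerMeasure_nonneg _
  exact le_mul_of_one_le_right h5 (one_le_of_monic h3)

lemma norm_eval_conj (g : ℤ[X]) (x : ℂ) :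
    ‖aeval ((starRingEnd ℂ) x) g‖ = ‖aeval x g‖ := by
  have h1 : aeval ((starRingEnd ℂ) x) g = (starRingEnd ℂ) (aeval x g) := by
    have h2 := Polynomial.hom_eval₂ g (algebraMap ℤ ℂ) (starRingEnd ℂ) x
    rw [aeval_def, aeval_def, h2]
    congr 1
    exact RingHom.ext_int _ _
  rw [h1]
  exact Complex.norm_conj _

lemma MM_reverse (g : ℤ[X]) : Pool.Agent.H388SL.MM g.reverse = Pool.Agent.H388SL.MM g := by
  rcases eq_or_ne g 0 with rfl | hg
  · simp
  have hinj : Function.Injective (Int.castRingHom ℂ) := RingHom.injective_int _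
  have h0 : g.map (Int.castRingHom ℂ) ≠ 0 := (Polynomial.map_ne_zero_iff hinj).2 hg
  have h1 : g.reverse.map (Int.castRingHom ℂ) ≠ 0 :=
    (Polynomial.map_ne_zero_iff hinj).2 (by simpa using hg)
  unfold Pool.Agent.H388SL.MM
  rw [mahlerMeasure_def_of_ne_zero h0, mahlerMeasure_def_of_ne_zero h1]
  congr 2
  refine intervalIntegral.integral_congr fun θ _ => ?_
  congr 1
  set x := circleMap 0 1 θ with hx
  have hxn : ‖x‖ = 1 := by rw [hx]; simp
  have hx0 : x ≠ 0 := by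
    rw [← norm_pos_iff, hxn]; exact one_pos
  have hinv : x⁻¹ = (starRingEnd ℂ) x := by
    rw [Complex.inv_def, Complex.normSq_eq_norm_sq, hxn]; simp
  have e1 : ∀ (P : ℤ[X]) (w : ℂ), eval w (P.map (Int.castRingHom ℂ)) = aeval w P := by
    intro P w
    rw [eval_map, aeval_def]
    rfl
  rw [e1, e1]
  have : Invertible x⁻¹ := invertibleOfNonzero (inv_ne_zero hx0)
  have h2 := eval₂_reverse_mul_pow (algebraMap ℤ ℂ) x⁻¹ g
  have h3 : ⅟(x⁻¹) = x := by rw [invOf_eq_inv, inv_inv]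
  rw [h3] at h2
  have h4 : ‖aeval x g.reverse‖ = ‖aeval x⁻¹ g‖ := by
    rw [aeval_def, aeval_def, ← h2, norm_mul, norm_pow, norm_inv, hxn, inv_one, one_pow, mul_one]
  rw [h4, hinv, norm_eval_conj]

/-- the Mahler measures of an algebraic unit and of its inverse -/
lemma MM_inv_le {z : ℂ} (hz : IsIntegral ℤ z) (hz' : IsIntegral ℤ z⁻¹) (hz0 : z ≠ 0) :
    MM z⁻¹ ≤ MM z := by
  have : Invertible z := invertibleOfNonzero hz0
  have h1 : aeval z⁻¹ (minpoly ℤ z).reverse = 0 := by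
    have h2 := (eval₂_reverse_eq_zero_iff (algebraMap ℤ ℂ) z (minpoly ℤ z)).2 (minpoly.aeval ℤ z)
    rw [invOf_eq_inv] at h2
    exact h2
  obtain ⟨q, hq⟩ := minpoly.isIntegrallyClosed_dvd hz' h1
  have hg0 : (minpoly ℤ z).reverse ≠ 0 := by
    simpa using (minpoly.monic hz).ne_zero
  have hq0 : q ≠ 0 := by
    rintro rfl
    exact hg0 (by rw [hq, mul_zero])
  have h3 : 1 ≤ Pool.Agent.H388SL.MM q := by
    unfold Pool.Agent.H388SL.MM
    apply one_le_mahlerMeasure_of_one_le_norm_leadingCoeff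
    rw [leadingCoeff_map_of_injective (RingHom.injective_int _)]
    have h4 : q.leadingCoeff ≠ 0 := leadingCoeff_ne_zero.2 hq0
    have h5 : (1 : ℤ) ≤ |q.leadingCoeff| := Int.one_le_abs h4
    have h6 : ‖(Int.castRingHom ℂ) q.leadingCoeff‖ = ((|q.leadingCoeff| : ℤ) : ℝ) := by
      simp [Int.cast_abs]
    rw [h6]
    exact_mod_cast h5
  rw [MM_eq, MM_eq, ← MM_reverse (minpoly ℤ z), hq, Pool.Agent.H388SL.MM_mul]
  exact le_mul_of_one_le_right (mahlerMeasure_nonneg _) h3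

end

end Pool.Agent.Helper168.GG
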