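import Mathlib
import Pool.Agent.Helper168.GG.Track
import Pool.Agent.Helper168.GG.Power

/-!
# Powers of eigenvalues of integer matrices of bounded Gram measure
-/

set_option autoImplicit false

namespace Pool.Agent.Helper168.GG

open Polynomial
open Pool.Agent.W963.GE (MM MM_gt MM_ge)
open Pool.Agent.H261R2.CM (m1)
open Pool.Agent.Helper168.SV (gm irr_gram one_le_gm)

noncomputable section

/-- `z` is a power `y ^ m`, `m ≠ 0`, of an eigenvalue of an integer matrix with irreducible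
characteristic polynomial and Gram measure at most `exp K` -/
def PowSmall (K : ℝ) (z : ℂ) : Prop :=
  ∃ (n : ℕ) (B : Matrix (Fin n) (Fin n) ℤ) (y : ℂ) (m : ℤ), Irreducible B.charpoly ∧
    aeval y B.charpoly = 0 ∧ Real.log (gm B) ≤ K ∧ m ≠ 0 ∧ z = y ^ m

lemma log_MM_of_powSmall : ∃ c : ℝ, 0 < c ∧ ∀ (K : ℝ) (z : ℂ), PowSmall K z → z ≠ 0 →
    (∀ n > 0, z ^ n ≠ 1) → IsIntegral ℤ z → IsIntegral ℤ z⁻¹ →
    c / (1 + K) ^ 3 ≤ Real.log (MM z) := by
  obtain ⟨c, hc, h⟩ := irr_gram
  refine ⟨c, hc, ?_⟩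
  rintro K z ⟨n, B, y, m, hirr, hy, hK, hm, hzy⟩ hz0 hroot hz hz'
  have hyi : IsIntegral ℤ y := ⟨B.charpoly, Matrix.charpoly_monic B, by
    rw [← aeval_def]; exact hy⟩
  have hy0 : y ≠ 0 := by
    rintro rfl
    rw [zero_zpow m hm] at hzy
    exact hz0 hzy
  -- the natural exponent
  set a := m.natAbs with ha
  have ha0 : 0 < a := Int.natAbs_pos.2 hm
  have hza : z = y ^ a ∨ z⁻¹ = y ^ a := by
    rcases Int.natAbs_eq m with h1 | h1
    · left
      rw [hzy, h1, zpow_natCast]
    · right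
      rw [hzy, h1, zpow_neg, inv_inv, zpow_natCast]
  have hyr : ∀ n > 0, y ^ n ≠ 1 := by
    intro k hk h1
    apply hroot k hk
    rcases hza with h2 | h2
    · rw [h2, ← pow_mul, mul_comm, pow_mul, h1, one_pow]
    · have h3 : (z⁻¹) ^ k = 1 := by rw [h2, ← pow_mul, mul_comm, pow_mul, h1, one_pow]
      rw [inv_pow, inv_eq_one] at h3
      exact h3
  have hM : 1 < MM y := MM_gt y hyi hy0 hyr
  have hmin : minpoly ℤ y = B.charpoly := by
    have h6 := minpoly.isIntegrallyClosed_dvd hyi hy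
    exact eq_of_monic_of_associated (minpoly.monic hyi) (Matrix.charpoly_monic _)
      ((minpoly.irreducible hyi).associated_of_dvd hirr h6)
  have hM' : 1 < m1 B.charpoly := by rw [← hmin]; exact hM
  have h1 := h n B hirr hM'
  have h2 : m1 B.charpoly = MM y := by rw [← hmin]; rfl
  rw [h2] at h1
  have h3 : 0 ≤ Real.log (gm B) := Real.log_nonneg (one_le_gm B)
  have h4 : c / (1 + K) ^ 3 ≤ c / (1 + Real.log (gm B)) ^ 3 := by
    apply div_le_div_of_nonneg_left hc.le (by positivity)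
    exact pow_le_pow_left₀ (by positivity) (by linarith) 3
  have h5 : MM y ≤ MM z := by
    rcases hza with h2 | h2
    · rw [h2]; exact MM_pow_ge hyi ha0
    · have h6 := MM_pow_ge hyi ha0
      rw [← h2] at h6
      exact h6.trans (MM_inv_le hz hz' hz0)
  exact h4.trans (h1.trans (Real.log_le_log (by linarith) h5))

end

end Pool.Agent.Helper168.GG
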