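import Mathlib
import Pool.Agent.Helper168.GG.Main

/-!
# Nilpotent-by-cyclic groups: preparations
-/

set_option autoImplicit false

namespace Pool.Agent.Helper168.GG

open Polynomial
open scoped Pointwise commutatorElement
open Pool.Agent.TH53.UG (act act_of)
open Pool.Agent.H785R3.GrowthA (gam)

universe u

variable {G : Type u} [Group G]

lemma act_ext {N : Subgroup G} {f g : Module.End ℤ (Additive (Abelianization N))}
    (h : ∀ a : N, f (Additive.ofMul (Abelianization.of a)) =
      g (Additive.ofMul (Abelianization.of a))) : f = g := by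
  apply LinearMap.ext
  intro b
  obtain ⟨γ, hγ⟩ := QuotientGroup.mk_surjective (Additive.toMul b)
  have hb : b = Additive.ofMul (Abelianization.of γ) := by
    apply Additive.toMul.injective
    exact hγ.symm
  rw [hb]
  exact h γ

lemma act_mul (N : Subgroup G) [N.Normal] (s t : G) : act N (s * t) = act N s * act N t := by
  apply act_ext
  intro a
  rw [Module.End.mul_apply, act_of, act_of, act_of, map_mul, MulAut.mul_apply]

lemma act_one (N : Subgroup G) [N.Normal] : act N (1 : G) = 1 := by
  apply act_ext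
  intro a
  rw [act_of, map_one, MulAut.one_apply, Module.End.one_apply]

lemma act_pow (N : Subgroup G) [N.Normal] (t : G) (n : ℕ) : act N (t ^ n) = act N t ^ n := by
  induction n with
  | zero => rw [pow_zero, pow_zero, act_one]
  | succ n ih => rw [pow_succ, pow_succ, act_mul, ih]

lemma act_of_mem (N : Subgroup G) [N.Normal] {ν : G} (hν : ν ∈ N) : act N ν = 1 := by
  apply act_ext
  intro a
  rw [act_of, Module.End.one_apply]
  congr 1
  have h1 : MulAut.conjNormal ν a = (⟨ν, hν⟩ : N) * a * (⟨ν, hν⟩ : N)⁻¹ :=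
    Subtype.ext (by rw [MulAut.conjNormal_apply]; rfl)
  rw [h1, map_mul, map_mul, map_inv, mul_comm (Abelianization.of _) (Abelianization.of a),
    mul_inv_cancel_right]

/-- the map of the abelianizations induced by an inclusion -/
noncomputable def incl {Γ N : Subgroup G} (h : Γ ≤ N) :
    Additive (Abelianization Γ) →ₗ[ℤ] Additive (Abelianization N) :=
  (MonoidHom.toAdditive (Abelianization.map (Subgroup.inclusion h))).toIntLinearMap

lemma incl_of {Γ N : Subgroup G} (h : Γ ≤ N) (a : Γ) :
    incl h (Additive.ofMul (Abelianization.of a)) =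
      Additive.ofMul (Abelianization.of (Subgroup.inclusion h a)) := by
  simp [incl]

lemma exists_of {N : Subgroup G} (m : Additive (Abelianization N)) :
    ∃ a : N, m = Additive.ofMul (Abelianization.of a) := by
  obtain ⟨γ, hγ⟩ := QuotientGroup.mk_surjective (Additive.toMul m)
  refine ⟨γ, ?_⟩
  apply Additive.toMul.injective
  exact hγ.symm

lemma incl_act {Γ N : Subgroup G} [Γ.Normal] [N.Normal] (h : Γ ≤ N) (t : G)
    (m : Additive (Abelianization Γ)) : incl h (act Γ t m) = act N t (incl h m) := by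
  obtain ⟨a, rfl⟩ := exists_of m
  rw [act_of, incl_of, incl_of, act_of]
  congr 2

lemma of_inj {N : Subgroup G} (hN : ∀ a ∈ N, ∀ b ∈ N, a * b = b * a) {a : N}
    (ha : Abelianization.of a = 1) : a = 1 := by
  have h1 : a ∈ commutator N := (QuotientGroup.eq_one_iff a).1 ha
  have h2 : commutator N ≤ ⊥ := by
    rw [commutator_def, Subgroup.commutator_le]
    intro x _ y _
    rw [Subgroup.mem_bot, commutatorElement_eq_one_iff_mul_comm]
    exact Subtype.ext (hN x x.2 y y.2)
  exact (Subgroup.mem_bot).1 (h2 h1)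

lemma incl_inj {Γ N : Subgroup G} (h : Γ ≤ N) (hN : ∀ a ∈ N, ∀ b ∈ N, a * b = b * a) :
    Function.Injective (incl h) := by
  refine (injective_iff_map_eq_zero (incl h)).2 ?_
  intro m hm
  obtain ⟨a, rfl⟩ := exists_of m
  have h1 : incl h (Additive.ofMul (Abelianization.of a)) = 0 := hm
  rw [incl_of] at h1
  have h2 : Abelianization.of (Subgroup.inclusion h a) = 1 := h1
  have h3 := of_inj hN h2
  have h4 : a = 1 := Subgroup.inclusion_injective h (by rw [h3, map_one])
  rw [h4, map_one]
  rfl

lemma gam_one_le (N : Subgroup G) [N.Normal] (s : G) (hs : N ⊔ Subgroup.zpowers s = ⊤) :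
    gam G 1 ≤ N := by
  have h0 : ∀ x : G, ∃ m : ℤ, (QuotientGroup.mk' N x) = (QuotientGroup.mk' N s) ^ m := by
    intro x
    have hx : x ∈ N ⊔ Subgroup.zpowers s := by rw [hs]; exact Subgroup.mem_top x
    obtain ⟨ν, hν, w, ⟨m, rfl⟩, rfl⟩ := Subgroup.mem_sup_of_normal_left.1 hx
    refine ⟨m, ?_⟩
    have h1 : QuotientGroup.mk' N ν = 1 := (QuotientGroup.eq_one_iff ν).2 hν
    rw [map_mul, h1, one_mul]
    simp
  show (⊤ : Subgroup G).lowerCentralSeries 1 ≤ N
  rw [Subgroup.top_lowerCentralSeries_one, commutator_def, Subgroup.commutator_le]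
  intro x _ y _
  obtain ⟨i, hi⟩ := h0 x
  obtain ⟨j, hj⟩ := h0 y
  rw [← QuotientGroup.eq_one_iff]
  have h1 : ((⁅x, y⁆ : G) : G ⧸ N) = ⁅QuotientGroup.mk' N x, QuotientGroup.mk' N y⁆ := by
    rw [← map_commutatorElement]
    rfl
  rw [h1, hi, hj, commutatorElement_eq_one_iff_mul_comm, ← zpow_add, ← zpow_add, add_comm]

/-- a nilpotent normal subgroup that contains the commutator subgroup -/
theorem vn_of_quot {G : Type u} [Group G] (N : Subgroup G) [N.Normal]
    (hN : ⁅(⊤ : Subgroup G), ⊤⁆ ≤ N) (hnil : Group.IsNilpotent N)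
    (hv : Group.IsVirtuallyNilpotent (G ⧸ ⁅N, N⁆)) : Group.IsVirtuallyNilpotent G := by
  obtain ⟨c, hc⟩ := (Subgroup.isNilpotent_iff_lowerCentralSeries N).1 hnil
  obtain ⟨H, hHn, hH⟩ := hv
  set D2 : Subgroup G := ⁅N, N⁆ with hD2
  set π : G →* G ⧸ D2 := QuotientGroup.mk' D2 with hπ
  set K : Subgroup (G ⧸ D2) := H.normalCore with hK
  have hKfin : K.FiniteIndex := inferInstance
  obtain ⟨k, hk⟩ := (Subgroup.isNilpotent_iff_lowerCentralSeries _).1 hHn
  have hKk : K.lowerCentralSeries k = ⊥ := by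
    rw [eq_bot_iff, ← hk]
    exact Subgroup.lowerCentralSeries_mono k H.normalCore_le
  set D : Subgroup (G ⧸ D2) := N.map π with hD
  have hsurj : Function.Surjective π := QuotientGroup.mk'_surjective D2
  have hDn : D.Normal := Subgroup.Normal.map inferInstance π hsurj
  have hDtop : ⁅(⊤ : Subgroup (G ⧸ D2)), ⊤⁆ ≤ D := by
    have h0 : Subgroup.map π ⁅(⊤ : Subgroup G), ⊤⁆ = ⁅(⊤ : Subgroup (G ⧸ D2)), ⊤⁆ := by
      rw [Subgroup.map_commutator, ← MonoidHom.range_eq_map, MonoidHom.range_eq_top.2 hsurj]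
    rw [← h0]
    exact Subgroup.map_mono hN
  have hDD : ∀ a ∈ D, ∀ b ∈ D, a * b = b * a := by
    rintro _ ⟨a, ha, rfl⟩ _ ⟨b, hb, rfl⟩
    have h1 : ⁅a, b⁆ ∈ D2 := Subgroup.commutator_mem_commutator ha hb
    have h2 : π ⁅a, b⁆ = 1 := (QuotientGroup.eq_one_iff _).2 h1
    rw [map_commutatorElement, commutatorElement_eq_one_iff_mul_comm] at h2
    exact h2
  have h3 := H648R4.fitting (K := K) (D := D) hDtop hDD k
  rw [hKk] at h3
  set L : Subgroup G := (K ⊔ D).comap π with hL
  have hLn : L.Normal := inferInstance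
  have hNL : N ≤ L := by
    rw [hL, ← Subgroup.map_le_iff_le_comap]
    exact le_sup_right
  have hLk : L.lowerCentralSeries (k + 2) ≤ ⁅N, N⁆ := by
    have h4 : (L.lowerCentralSeries (k + 2)).map π = ⊥ := by
      rw [Subgroup.map_lowerCentralSeries, hL, Subgroup.map_comap_eq_self_of_surjective hsurj,
        eq_bot_iff]
      exact h3.trans inf_le_left
    rw [Subgroup.map_eq_bot_iff, hπ, QuotientGroup.ker_mk'] at h4
    exact h4
  obtain ⟨m, hm⟩ := H648R4.hall hNL hc hLk
  refine ⟨L, (Subgroup.isNilpotent_iff_lowerCentralSeries _).2 ⟨m, hm⟩, ?_⟩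
  have h5 : (K ⊔ D).FiniteIndex := Subgroup.finiteIndex_of_le le_sup_left
  constructor
  rw [hL, Subgroup.index_comap_of_surjective _ hsurj]
  exact h5.index_ne_zero

/-- the map of the abelianizations of a subgroup and of its image -/
noncomputable def pmap {G' : Type u} [Group G'] (f : G →* G') (N : Subgroup G) :
    Additive (Abelianization N) →ₗ[ℤ] Additive (Abelianization (N.map f)) :=
  (MonoidHom.toAdditive (Abelianization.map (f.subgroupMap N))).toIntLinearMap

lemma pmap_of {G' : Type u} [Group G'] (f : G →* G') (N : Subgroup G) (a : N) :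
    pmap f N (Additive.ofMul (Abelianization.of a)) =
      Additive.ofMul (Abelianization.of (f.subgroupMap N a)) := by
  simp [pmap]

lemma pmap_act {G' : Type u} [Group G'] (f : G →* G') (N : Subgroup G) [N.Normal]
    [(N.map f).Normal] (t : G) (m : Additive (Abelianization N)) :
    pmap f N (act N t m) = act (N.map f) (f t) (pmap f N m) := by
  obtain ⟨a, rfl⟩ := exists_of m
  rw [act_of, pmap_of, pmap_of, act_of]
  congr 2
  apply Subtype.ext
  rw [MulAut.conjNormal_apply]
  change f ((MulAut.conjNormal t a : N) : G) = f t * f a * (f t)⁻¹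
  rw [MulAut.conjNormal_apply, map_mul, map_mul, map_inv]

lemma pmap_surj {G' : Type u} [Group G'] (f : G →* G') (N : Subgroup G) :
    Function.Surjective (pmap f N) := by
  intro m
  obtain ⟨a, rfl⟩ := exists_of m
  obtain ⟨b, rfl⟩ := f.subgroupMap_surjective N a
  exact ⟨Additive.ofMul (Abelianization.of b), pmap_of f N b⟩

end Pool.Agent.Helper168.GG
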