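import Mathlib
import Pool.Agent.Helper168.GG.Cyclic

/-!
# Nilpotent-by-cyclic groups: the version with eigenvalues
-/

set_option autoImplicit false

namespace Pool.Agent.Helper168.GG

open Polynomial
open scoped Pointwise commutatorElement TensorProduct
open Pool.Agent.TH53.UG (act act_of aeval_comm integral_of_root rho_of_dig rho_of_two eig_of_root)
open Pool.Agent.W963.GE (MM TT TT_finite TT_gen rho_TT vn_of_sub)
open Pool.Agent.Helper168.SV (gm one_le_gm)
open Pool.Agent.H785R3.GrowthA (gam)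

universe u

variable {G : Type u} [Group G]

/-- the complexified action on the abelianization -/
noncomputable def cact (N : Subgroup G) [N.Normal] (t : G) :
    Module.End ℂ (ℂ ⊗[ℤ] Additive (Abelianization N)) := LinearMap.baseChange ℂ (act N t)

lemma cact_mul (N : Subgroup G) [N.Normal] (s t : G) : cact N (s * t) = cact N s * cact N t := by
  rw [cact, act_mul, LinearMap.baseChange_mul]; rfl

lemma cact_one (N : Subgroup G) [N.Normal] : cact N (1 : G) = 1 := by
  rw [cact, act_one, LinearMap.baseChange_one]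

lemma cact_pow (N : Subgroup G) [N.Normal] (t : G) (n : ℕ) : cact N (t ^ n) = cact N t ^ n := by
  rw [cact, act_pow, LinearMap.baseChange_pow]; rfl

lemma cact_inv_eig (N : Subgroup G) [N.Normal] (s : G) {z : ℂ}
    (hz : (cact N s⁻¹).HasEigenvalue z) : (cact N s).HasEigenvalue z⁻¹ := by
  obtain ⟨v, hv⟩ := hz.exists_hasEigenvector
  have h1 : cact N s⁻¹ v = z • v := hv.apply_eq_smul
  have h2 : cact N s (cact N s⁻¹ v) = v := by
    rw [← Module.End.mul_apply, ← cact_mul, mul_inv_cancel, cact_one, Module.End.one_apply]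
  rw [h1, map_smul] at h2
  have hz0 : z ≠ 0 := by
    rintro rfl
    rw [zero_smul] at h2
    exact hv.2 h2.symm
  apply Module.End.hasEigenvalue_of_hasEigenvector (x := v)
  refine ⟨?_, hv.2⟩
  rw [Module.End.mem_eigenspace_iff]
  conv_rhs => rw [← h2]
  rw [smul_smul, inv_mul_cancel₀ hz0, one_smul]

lemma cyc_pow_eig (N : Subgroup G) [N.Normal] [Module.Finite ℤ (Additive (Abelianization N))]
    (s : G) (a : ℕ) {x : ℂ} (hx : ∀ m > 0, x ^ m ≠ 1) (he : (cact N (s ^ a)).HasEigenvalue x) :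
    0 < a ∧ ∃ y : ℂ, (cact N s).HasEigenvalue y ∧ x = y ^ a := by
  have ha : 0 < a := by
    rcases Nat.eq_zero_or_pos a with rfl | ha
    · exfalso
      rw [pow_zero, cact_one] at he
      obtain ⟨v, hv⟩ := he.exists_hasEigenvector
      have h1 : (1 : Module.End ℂ (ℂ ⊗[ℤ] Additive (Abelianization N))) v = x • v :=
        hv.apply_eq_smul
      rw [Module.End.one_apply] at h1
      have h2 : (x - 1) • v = 0 := by rw [sub_smul, ← h1, one_smul, sub_self]
      rcases smul_eq_zero.1 h2 with h3 | h3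
      · exact hx 1 one_pos (by rw [pow_one]; exact sub_eq_zero.1 h3)
      · exact hv.2 h3
    · exact ha
  refine ⟨ha, ?_⟩
  rw [cact_pow, Module.End.hasEigenvalue_iff_mem_spectrum, spectrum.map_pow_of_pos _ ha] at he
  obtain ⟨y, hy, hyx⟩ := he
  exact ⟨y, Module.End.hasEigenvalue_iff_mem_spectrum.2 hy, hyx.symm⟩

lemma cyc_zpow_eig (N : Subgroup G) [N.Normal] [Module.Finite ℤ (Additive (Abelianization N))]
    (s : G) (m : ℤ) {x : ℂ} (hx : ∀ m > 0, x ^ m ≠ 1) (he : (cact N (s ^ m)).HasEigenvalue x) :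
    m ≠ 0 ∧ ∃ y : ℂ, (cact N s).HasEigenvalue y ∧ x = y ^ m := by
  rcases Int.eq_nat_or_neg m with ⟨a, rfl | rfl⟩
  · rw [zpow_natCast] at he
    obtain ⟨ha, y, h1, h2⟩ := cyc_pow_eig N s a hx he
    exact ⟨by exact_mod_cast ha.ne', y, h1, by rw [zpow_natCast]; exact h2⟩
  · rw [zpow_neg, zpow_natCast, ← inv_pow] at he
    obtain ⟨ha, y, h1, h2⟩ := cyc_pow_eig N s⁻¹ a hx he
    have ha' : (a : ℤ) ≠ 0 := by exact_mod_cast ha.ne'
    refine ⟨by omega, y⁻¹, cact_inv_eig N s h1, ?_⟩
    rw [zpow_neg, zpow_natCast, inv_pow, inv_inv, h2]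

lemma eig_map {M M' : Type*} [AddCommGroup M] [AddCommGroup M'] (f : M →ₗ[ℤ] M')
    (hf : Function.Injective f) {g : Module.End ℤ M} {h : Module.End ℤ M'}
    (hc : ∀ m, f (g m) = h (f m)) {y : ℂ}
    (he : Module.End.HasEigenvalue (LinearMap.baseChange ℂ g : Module.End ℂ (ℂ ⊗[ℤ] M)) y) :
    Module.End.HasEigenvalue (LinearMap.baseChange ℂ h : Module.End ℂ (ℂ ⊗[ℤ] M')) y := by
  obtain ⟨v, hv⟩ := he.exists_hasEigenvector
  have h1 : (LinearMap.baseChange ℂ g : Module.End ℂ (ℂ ⊗[ℤ] M)) v = y • v := hv.apply_eq_smul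
  have hinj : Function.Injective (LinearMap.baseChange ℂ f) :=
    Module.Flat.lTensor_preserves_injective_linearMap (M := ℂ) f hf
  have hcomp : (f.baseChange ℂ) ∘ₗ (g.baseChange ℂ) = (h.baseChange ℂ) ∘ₗ (f.baseChange ℂ) := by
    rw [← LinearMap.baseChange_comp, ← LinearMap.baseChange_comp]
    congr 1
    ext m
    exact hc m
  have h2 := LinearMap.congr_fun hcomp v
  rw [LinearMap.comp_apply, LinearMap.comp_apply, h1, map_smul] at h2
  apply Module.End.hasEigenvalue_of_hasEigenvector (x := f.baseChange ℂ v)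
  refine ⟨Module.End.mem_eigenspace_iff.2 h2.symm, ?_⟩
  intro h3
  apply hv.2
  apply hinj
  rw [h3, map_zero]

lemma pmap_inj (N : Subgroup G) [N.Normal] :
    Function.Injective (pmap (QuotientGroup.mk' ⁅N, N⁆) N) := by
  refine (injective_iff_map_eq_zero _).2 ?_
  intro m hm
  obtain ⟨a, rfl⟩ := exists_of m
  rw [pmap_of] at hm
  have hN' : ∀ a ∈ N.map (QuotientGroup.mk' ⁅N, N⁆), ∀ b ∈ N.map (QuotientGroup.mk' ⁅N, N⁆),
      a * b = b * a := by
    rintro _ ⟨a, ha, rfl⟩ _ ⟨b, hb, rfl⟩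
    have h1 : ⁅a, b⁆ ∈ ⁅N, N⁆ := Subgroup.commutator_mem_commutator ha hb
    have h2 : (QuotientGroup.mk' ⁅N, N⁆) ⁅a, b⁆ = 1 := (QuotientGroup.eq_one_iff _).2 h1
    rw [map_commutatorElement, commutatorElement_eq_one_iff_mul_comm] at h2
    exact h2
  have h1 : Abelianization.of ((QuotientGroup.mk' ⁅N, N⁆).subgroupMap N a) = 1 := hm
  have h2 := of_inj hN' h1
  have h3 : QuotientGroup.mk' ⁅N, N⁆ (a : G) = 1 := congrArg Subtype.val h2
  have h4 : (a : G) ∈ ⁅N, N⁆ := (QuotientGroup.eq_one_iff _).1 h3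
  rw [← Subgroup.map_subtype_commutator] at h4
  obtain ⟨δ, hδ, hδe⟩ := h4
  have h5 : δ = a := Subtype.ext hδe
  rw [h5] at hδ
  exact (QuotientGroup.eq_one_iff a).2 hδ

/-- nilpotent-by-cyclic groups -/
theorem gap_eig : ∃ c : ℝ, 0 < c ∧ ∀ (G : Type u) [Group G] (S : Set G), S.Finite →
    Subgroup.closure S = ⊤ → ∀ (N : Subgroup G) [N.Normal],
    Group.IsNilpotent N → ∀ s : G, N ⊔ Subgroup.zpowers s = ⊤ →
    ∀ K : ℝ, 0 ≤ K → (∀ z : ℂ, (cact N s).HasEigenvalue z → IsIntegral ℤ z → IsIntegral ℤ z⁻¹ →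
      (∀ m > 0, z ^ m ≠ 1) → PowSmall K z) →
      Group.IsVirtuallyNilpotent G ∨ c / (1 + K) ^ 3 ≤ H746UG.rho S := by
  obtain ⟨c1, hc1, h1⟩ := log_MM_of_powSmall
  set c0 := min c1 (1 / 2) with hc0def
  have hc0 : 0 < c0 := lt_min hc1 (by norm_num)
  refine ⟨c0 / 12, by positivity, ?_⟩
  intro G _ S hfin hgen N _ hnil s hs K hK0 hK
  have hy0 : 0 ≤ c0 / (1 + K) ^ 3 := by positivity
  have hy : c0 / (1 + K) ^ 3 ≤ 1 / 2 :=
    (div_le_self hc0.le (one_le_pow₀ (by linarith))).trans (min_le_right _ _)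
  have e : c0 / 12 / (1 + K) ^ 3 = (c0 / (1 + K) ^ 3 / 3) / ((2 ^ (1 + 1) : ℕ) : ℝ) := by
    push_cast
    rw [div_div, div_div, div_div]
    congr 1
    ring
  rw [e]
  have hΓ0 : ⁅(⊤ : Subgroup G), ⊤⁆ ≤ N := by
    have := gam_one_le N s hs
    rwa [gam, Subgroup.top_lowerCentralSeries_one, commutator_def] at this
  -- the quotient by `[N, N]`
  have hpinj := pmap_inj N
  set D := ⁅N, N⁆ with hD
  set π : G →* G ⧸ D := QuotientGroup.mk' D with hπ
  have hsurj : Function.Surjective π := QuotientGroup.mk'_surjective D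
  set N' : Subgroup (G ⧸ D) := N.map π with hN'def
  have hN'n : N'.Normal := Subgroup.Normal.map inferInstance π hsurj
  have hN' : ∀ a ∈ N', ∀ b ∈ N', a * b = b * a := by
    rintro _ ⟨a, ha, rfl⟩ _ ⟨b, hb, rfl⟩
    have h1 : ⁅a, b⁆ ∈ D := Subgroup.commutator_mem_commutator ha hb
    have h2 : π ⁅a, b⁆ = 1 := (QuotientGroup.eq_one_iff _).2 h1
    rw [map_commutatorElement, commutatorElement_eq_one_iff_mul_comm] at h2
    exact h2
  have hΓ : gam (G ⧸ D) 1 ≤ N' := by
    have h0 : Subgroup.map π ⁅(⊤ : Subgroup G), ⊤⁆ = ⁅(⊤ : Subgroup (G ⧸ D)), ⊤⁆ := by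
      rw [Subgroup.map_commutator, ← MonoidHom.range_eq_map, MonoidHom.range_eq_top.2 hsurj]
    rw [gam, Subgroup.top_lowerCentralSeries_one, commutator_def, ← h0]
    exact Subgroup.map_mono hΓ0
  have hS' : Subgroup.closure (π '' S) = ⊤ := by
    rw [← MonoidHom.map_closure, hgen, ← MonoidHom.range_eq_map]
    exact MonoidHom.range_eq_top.2 hsurj
  have hcard : ∀ n L : ℕ, Nat.card ↥((π '' S) ^ n) ^ L ≤ Nat.card ↥(S ^ n) ^ L := by
    intro n L
    refine Nat.pow_le_pow_left ?_ _
    have : Finite ↥(S ^ n) := H746UG.finite_pow S hfin n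
    rw [← Set.image_pow]
    exact Nat.card_image_le this
  rcases main_ball (hfin.image π) hS' (k := 1) le_rfl with
    h | ⟨hMf, t', c, x, _, hx0, hx, hp, hn⟩ | ⟨_, h⟩
  · right
    refine le_trans ?_ (rho_of_two S (L := 2 ^ (1 + 1)) (by norm_num)
      (fun n => (h n).trans (hcard n _)))
    apply div_le_div_of_nonneg_right _ (by positivity)
    have := Real.log_two_gt_d9
    linarith
  · right
    refine le_trans ?_ (rho_of_dig S (L := 2 ^ (1 + 1)) (by norm_num) hx0
      (fun n => (hn n).trans (hcard n _)))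
    apply div_le_div_of_nonneg_right _ (by positivity)
    have hxi : IsIntegral ℤ x := integral_of_root _ c hp
    by_cases hi : IsIntegral ℤ x⁻¹
    · apply Pool.Agent.R328.eta_of_log hxi hx0 hy0 hy
      -- the acting element modulo the action of `N`
      have ht' : t' ∈ N' ⊔ Subgroup.zpowers (π s) := by
        have h3 : (N ⊔ Subgroup.zpowers s).map π = ⊤ := by
          rw [hs, ← MonoidHom.range_eq_map, MonoidHom.range_eq_top.2 hsurj]
        rw [Subgroup.map_sup, MonoidHom.map_zpowers] at h3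
        rw [hN'def, h3]
        exact Subgroup.mem_top _
      obtain ⟨ν, hν, w, ⟨m, rfl⟩, rfl⟩ := Subgroup.mem_sup_of_normal_left.1 ht'
      simp only at hp
      have hact : act (gam (G ⧸ D) 1) (ν * π s ^ m) = act (gam (G ⧸ D) 1) (π s ^ m) := by
        rw [act_mul]
        have h3 : act (gam (G ⧸ D) 1) ν = 1 := by
          apply act_ext
          intro a
          rw [act_of, Module.End.one_apply]
          congr 2
          apply Subtype.ext
          rw [MulAut.conjNormal_apply, hN' ν hν a (hΓ a.2), mul_inv_cancel_right]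
        rw [h3, one_mul]
      rw [hact] at hp
      have heig : (cact (gam (G ⧸ D) 1) (π s ^ m)).HasEigenvalue x :=
        eig_of_root _ c hp (minpoly.aeval ℤ x)
      obtain ⟨hm0, y, hy1, hyx⟩ := cyc_zpow_eig _ (π s) m hx heig
      -- transport to `N`
      have hy2 : (cact N' (π s)).HasEigenvalue y :=
        eig_map (incl hΓ) (incl_inj hΓ hN') (incl_act hΓ (π s)) hy1
      let ep : Additive (Abelianization N) ≃ₗ[ℤ] Additive (Abelianization N') :=
        LinearEquiv.ofBijective (pmap π N) ⟨hpinj, pmap_surj π N⟩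
      have hy3 : (cact N s).HasEigenvalue y := by
        refine eig_map (ep.symm : Additive (Abelianization N') →ₗ[ℤ] Additive (Abelianization N))
          ep.symm.injective ?_ hy2
        intro m
        apply ep.injective
        have h3 : ep (ep.symm (act N' (π s) m)) = act N' (π s) m := ep.apply_symm_apply _
        have h4 : ep (act N s (ep.symm m)) = act N' (π s) (ep (ep.symm m)) :=
          pmap_act π N s (ep.symm m)
        rw [ep.apply_symm_apply] at h4
        exact h3.trans h4.symm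
      -- `y` is an algebraic unit
      set a := m.natAbs with ha
      have ha0 : 0 < a := Int.natAbs_pos.2 hm0
      have hcase : (x = y ^ a ∧ x⁻¹ = (y⁻¹) ^ a) ∨ (x⁻¹ = y ^ a ∧ x = (y⁻¹) ^ a) := by
        rcases Int.natAbs_eq m with h3 | h3
        · left
          rw [hyx, h3, zpow_natCast, inv_pow]
          exact ⟨rfl, rfl⟩
        · right
          rw [hyx, h3, zpow_neg, inv_inv, zpow_natCast, inv_pow]
          exact ⟨rfl, rfl⟩
      have hyi : IsIntegral ℤ y ∧ IsIntegral ℤ y⁻¹ := by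
        rcases hcase with ⟨h3, h4⟩ | ⟨h3, h4⟩
        · rw [h3] at hxi; rw [h4] at hi
          exact ⟨hxi.of_pow ha0, hi.of_pow ha0⟩
        · rw [h4] at hxi; rw [h3] at hi
          exact ⟨hi.of_pow ha0, hxi.of_pow ha0⟩
      have hyr : ∀ n > 0, y ^ n ≠ 1 := by
        intro n hn h3
        apply hx n hn
        rw [hyx, ← zpow_natCast, ← zpow_mul, mul_comm, zpow_mul, zpow_natCast, h3, one_zpow]
      obtain ⟨n, B, y', m', g1, g2, g3, g4, g5⟩ := hK y hy3 hyi.1 hyi.2 hyr
      refine le_trans ?_ (h1 K x ⟨n, B, y', m' * m, g1, g2, g3, mul_ne_zero g4 hm0, ?_⟩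
        hx0 hx hxi hi)
      · exact div_le_div_of_nonneg_right (min_le_left _ _) (by positivity)
      · rw [hyx, g5, zpow_mul]
    · rw [H746UG.eta_eq_log_two x hx0 (fun h => hi h.2)]
      have := Real.log_two_gt_d9
      linarith
  · left
    apply vn_of_quot N hΓ0 hnil
    apply h
    have hcomm : ∀ a b : gam (G ⧸ D) 1, a * b = b * a := fun a b =>
      Subtype.ext (hN' a (hΓ a.2) b (hΓ b.2))
    let _ : CommGroup (gam (G ⧸ D) 1) :=
      { (inferInstance : Group (gam (G ⧸ D) 1)) with mul_comm := hcomm }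
    exact CommGroup.isNilpotent

/-- the version for groups with a nilpotent-by-cyclic subgroup of finite index -/
theorem gap_eig_index : ∃ c : ℝ, 0 < c ∧ ∀ (d : ℕ) (G : Type u) [Group G] (S : Set G),
    S.Finite → Subgroup.closure S = ⊤ → ∀ H : Subgroup G, H.index ≠ 0 → H.index ≤ d →
    ∀ (N : Subgroup H) [N.Normal], Group.IsNilpotent N → ∀ s : H, N ⊔ Subgroup.zpowers s = ⊤ →
    ∀ K : ℝ, 0 ≤ K → (∀ z : ℂ, (cact N s).HasEigenvalue z → IsIntegral ℤ z → IsIntegral ℤ z⁻¹ →
      (∀ m > 0, z ^ m ≠ 1) → PowSmall K z) →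
      Group.IsVirtuallyNilpotent G ∨ c / (d * (1 + K) ^ 3) ≤ H746UG.rho S := by
  obtain ⟨c, hc, h⟩ := gap_eig.{u}
  refine ⟨c / 2, by positivity, ?_⟩
  intro d G _ S hfin hgen H hH0 hHd N _ hnil s hs K hK0 hK
  have hd : 1 ≤ d := by omega
  have hd' : (1 : ℝ) ≤ d := by exact_mod_cast hd
  rcases S.eq_empty_or_nonempty with rfl | hne
  · left
    rw [Subgroup.closure_empty] at hgen
    have hsub : Subsingleton G := Subgroup.subsingleton_iff.1 (subsingleton_of_bot_eq_top hgen)
    refine ⟨⊥, ?_, ?_⟩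
    · infer_instance
    · constructor
      rw [hgen, Subgroup.index_top]
      exact one_ne_zero
  rcases h H (TT S H d) (TT_finite S hfin H d) (TT_gen S hgen H hH0 hHd) N hnil s hs K hK0 hK with
    h1 | h1
  · left
    exact vn_of_sub H hH0 h1
  · right
    have h2 := rho_TT S hfin hne H hd
    have he : ((2 * d - 1 : ℕ) : ℝ) = 2 * d - 1 := by
      rw [Nat.cast_sub (by omega)]; push_cast; ring
    rw [he] at h2
    have h5 := h1.trans h2
    have h7 : 0 < c / (1 + K) ^ 3 := by positivity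
    have h6 : 0 ≤ H746UG.rho S := by
      by_contra h8
      nlinarith
    have e2 : c / 2 / (d * (1 + K) ^ 3) = c / (1 + K) ^ 3 / (2 * d) := by
      rw [div_div, div_div]
      congr 1
      ring
    rw [e2, div_le_iff₀ (by positivity)]
    nlinarith

/-- the eigenvalues of `s` are the roots of the characteristic polynomial of its matrix -/
lemma powSmall_of_matrix (N : Subgroup G) [N.Normal] (s : G) {n : ℕ}
    (b : Module.Basis (Fin n) ℤ (Additive (Abelianization N)))
    (hirr : Irreducible (LinearMap.toMatrix b b (act N s)).charpoly) {K : ℝ}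
    (hK : Real.log (gm (LinearMap.toMatrix b b (act N s))) ≤ K) {z : ℂ}
    (hz : (cact N s).HasEigenvalue z) : PowSmall K z := by
  have hfree : Module.Free ℤ (Additive (Abelianization N)) := Module.Free.of_basis b
  have hfinM : Module.Finite ℤ (Additive (Abelianization N)) := Module.Finite.of_basis b
  refine ⟨n, LinearMap.toMatrix b b (act N s), z, 1, hirr, ?_, hK, one_ne_zero, (zpow_one z).symm⟩
  rw [Module.End.hasEigenvalue_iff_isRoot_charpoly, cact, LinearMap.charpoly_baseChange,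
    IsRoot, eval_map, ← LinearMap.charpoly_toMatrix (act N s) b] at hz
  exact hz

end Pool.Agent.Helper168.GG
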